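import Pool.Agent.helper52.HY.Spec

/-!
# Project hy: (MP_af9036_an), module SMH: the sum of the losses
-/

set_option autoImplicit false

open Complex Metric Set Filter Topology MeasureTheory
open Pool.Agent.helper98.ILF Pool.Agent.helper16.Multibrot

noncomputable section

namespace HY

theorem SMH_level (M : ℕ) (x : ℝ) (h0 : 0 < x) (h1 : x ≤ (1 / 2 : ℝ) ^ M) :
    ∃ m : ℕ, M ≤ m ∧ (1 / 2 : ℝ) ^ (m + 1) ≤ x ∧ x ≤ (1 / 2 : ℝ) ^ m := by
  classical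
  have hex : ∃ k : ℕ, (1 / 2 : ℝ) ^ (M + k + 1) ≤ x := by
    obtain ⟨k, hk⟩ := exists_pow_lt_of_lt_one h0 (by norm_num : (1 / 2 : ℝ) < 1)
    refine ⟨k, le_trans ?_ hk.le⟩
    exact pow_le_pow_of_le_one (by norm_num) (by norm_num) (by omega)
  refine ⟨M + Nat.find hex, by omega, Nat.find_spec hex, ?_⟩
  rcases Nat.eq_zero_or_pos (Nat.find hex) with h | h
  · rw [h]; exact h1
  · have h2 := Nat.find_min hex (m := Nat.find hex - 1) (by omega)
    rw [not_le] at h2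
    have h3 : M + (Nat.find hex - 1) + 1 = M + Nat.find hex := by omega
    rw [h3] at h2
    exact h2.le

theorem SMH : SMH_stmt := by
  classical
  intro N M ι a ha hcard
  have hex : ∀ i : ℕ, ∃ m : ℕ, i ∈ ι → M ≤ m ∧ (1 / 2 : ℝ) ^ (m + 1) ≤ a i ∧ a i ≤ (1 / 2 : ℝ) ^ m := by
    intro i
    by_cases hi : i ∈ ι
    · obtain ⟨m, hm⟩ := SMH_level M (a i) (ha i hi).1 (ha i hi).2
      exact ⟨m, fun _ => hm⟩
    · exact ⟨0, fun h => absurd h hi⟩
  choose g hg using hex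
  set K : ℕ := ι.sup g + 1 with hK
  have hmaps : ∀ i ∈ ι, g i ∈ Finset.Ico M K := by
    intro i hi
    rw [Finset.mem_Ico]
    exact ⟨(hg i hi).1, Nat.lt_succ_of_le (Finset.le_sup hi)⟩
  rw [← Finset.sum_fiberwise_of_maps_to hmaps]
  have hfib : ∀ m ∈ Finset.Ico M K, ∑ i ∈ ι with g i = m, a i ^ 2 ≤ N * (1 / 2 : ℝ) ^ m := by
    intro m _
    have h1 : ∀ i ∈ ι.filter (fun i => g i = m), (1 / 2 : ℝ) ^ (m + 1) ≤ a i ∧ a i ≤ (1 / 2 : ℝ) ^ m := by
      intro i hi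
      rw [Finset.mem_filter] at hi
      have := (hg i hi.1).2
      rw [hi.2] at this
      exact this
    have h2 := hcard m (ι.filter (fun i => g i = m)) (Finset.filter_subset _ _) h1
    have h3 : ∀ i ∈ ι.filter (fun i => g i = m), a i ^ 2 ≤ ((1 / 2 : ℝ) ^ m) ^ 2 := by
      intro i hi
      have h4 := h1 i hi
      have h5 : 0 ≤ a i := le_trans (by positivity) h4.1
      exact pow_le_pow_left₀ h5 h4.2 2
    calc ∑ i ∈ ι with g i = m, a i ^ 2 ≤ ∑ _i ∈ ι.filter (fun i => g i = m), ((1 / 2 : ℝ) ^ m) ^ 2 :=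
          Finset.sum_le_sum h3
      _ = ((ι.filter (fun i => g i = m)).card : ℝ) * ((1 / 2 : ℝ) ^ m) ^ 2 := by
          rw [Finset.sum_const, nsmul_eq_mul]
      _ ≤ ((N * 2 ^ m : ℕ) : ℝ) * ((1 / 2 : ℝ) ^ m) ^ 2 := by
          refine mul_le_mul_of_nonneg_right ?_ (by positivity)
          exact_mod_cast h2
      _ = N * (1 / 2 : ℝ) ^ m := by
          push_cast
          have h6 : (2 : ℝ) ^ m * (1 / 2 : ℝ) ^ m = 1 := by
            rw [← mul_pow]; norm_num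
          calc (N : ℝ) * 2 ^ m * ((1 / 2 : ℝ) ^ m) ^ 2
              = N * (2 ^ m * (1 / 2 : ℝ) ^ m) * (1 / 2 : ℝ) ^ m := by ring
            _ = N * (1 / 2 : ℝ) ^ m := by rw [h6, mul_one]
  calc ∑ m ∈ Finset.Ico M K, ∑ i ∈ ι with g i = m, a i ^ 2
      ≤ ∑ m ∈ Finset.Ico M K, N * (1 / 2 : ℝ) ^ m := Finset.sum_le_sum hfib
    _ = N * ∑ m ∈ Finset.Ico M K, (1 / 2 : ℝ) ^ m := by rw [Finset.mul_sum]
    _ ≤ N * ((1 / 2 : ℝ) ^ M / (1 - 1 / 2)) := by
        refine mul_le_mul_of_nonneg_left ?_ (Nat.cast_nonneg _)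
        exact geom_sum_Ico_le_of_lt_one (by norm_num) (by norm_num)
    _ = 2 * N * (1 / 2 : ℝ) ^ M := by ring

end HY
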